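import Pool.Agent.Run7.h644.BC.Random

/-!
# Hadwiger's conjecture for graphs of small local biclique cover number

The local biclique cover number (or bipartite degree) of a graph `G` is the least `r` such that the edges of
`G` can be covered by complete bipartite subgraphs of `G` in such a way that every vertex is in at most `r` of
them.

**Theorem.**
1. Let `G` be a finite graph with local biclique cover number at most `r`, and `χ(G) ≥ k + 2`.  If
  `r 2 ^ r log (4 r p) < k` then `K_{p,p}` is a subgraph of `G`, and so `K_{p+1}` is a minor of `G`.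
  So `h(G) ≥ exp (χ(G) / (r 2 ^ r)) / (5 r)` or so: an exponential surplus over Hadwiger's conjecture
  when `r` is bounded.
2. Hadwiger's conjecture, even with `K_{χ(G)+1}`, holds for all finite graphs `G` of chromatic number
  `> 2 ^ 20` and local biclique cover number at most `log₂ χ(G) - 2 log₂ log₂ χ(G)`.
3. The bound in 2 is right up to the second order term: the complete graph `K_n` has local biclique cover
  number at most `⌈log₂ n⌉`, and `K_{n+1}` is not a minor of it.
4. If the local biclique cover number is at most `2` and `χ(G) ≥ 8`, then `K_{χ(G)+1}` is a minor of `G`;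
  more generally `K_{p,p}` is a subgraph and `K_{p+1}` is a minor of `G` if
  `χ(G) ≥ k + 2` and `2 p - 1 ≤ (k choose (⌊k/2⌋ + 1))`.
5. The graphs in 4 include the underlying graphs of all line digraphs (arc graphs), for example all
  shift graphs.

So a large counterexample to Hadwiger's conjecture or to its off-by-one form has local biclique cover
number more than `log₂ χ - 2 log₂ log₂ χ`.

Proof.  If there is no `K_{p,p}`, then every biclique `i` of the cover has a side `X i` with less than `p`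
vertices; let `Y i` be the other side.  Orient `i → j` if a vertex of `X i` is in the biclique `j`.  All
out-degrees are at most `(p - 1) (r - 1)`, so the bicliques can be coloured with
`N = 2 (p - 1) (r - 1) + 1` colours such that the colour of `i` differs from the colour of `j` if a vertex
of `X i` is in `j`.  Take `k` subsets of `{1, …, N}` such that for all disjoint `P ≠ ∅` and `M` with
`|P| + |M| ≤ r` one of them contains `P` and is disjoint from `M`; random sets do for
`(2 N) ^ r (1 - 2 ^ {-r}) ^ k < 1`.  A vertex `v` which is in at least one `X i` gets as its colour a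
set that contains the colours of all `i` with `v ∈ X i` and does not contain the colours of the `j` with
`v ∈ Y j`; all other vertices get one more colour.  This is a proper colouring with `k + 1` colours.
-/

set_option autoImplicit false

namespace Pool.Agent.Results.MP_b47bfb_co.BicliqueCovers

open Finset Pool.Agent.Run7.h644.BC

/-- `K_m` is a minor of `G`: there are `m` pairwise disjoint vertex sets, each inducing a connected
subgraph, with an edge of `G` between any two of them. -/
def HasCliqueMinor {V : Type} (G : SimpleGraph V) (m : ℕ) : Prop :=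
  ∃ B : Fin m → Set V,
    (∀ i, (G.induce (B i)).Connected) ∧
    (∀ i j, i ≠ j → Disjoint (B i) (B j)) ∧
    (∀ i j, i ≠ j → ∃ u ∈ B i, ∃ w ∈ B j, G.Adj u w)

/-- `K_{p,p}` is a subgraph of `G`. -/
def HasBiclique {V : Type} (G : SimpleGraph V) (p : ℕ) : Prop :=
  ∃ A B : Finset V, A.card = p ∧ B.card = p ∧ ∀ a ∈ A, ∀ b ∈ B, G.Adj a b

/-- The local biclique cover number of `G` is at most `r`: the edges of `G` can be covered by finitely many
complete bipartite subgraphs with sides `X i`, `Y i` such that every vertex is in at most `r` of them. -/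
def LocalBicliqueCover {V : Type} (r : ℕ) (G : SimpleGraph V) : Prop :=
  ∃ (ι : Type) (_ : Finite ι) (X Y : ι → Set V),
    (∀ i, ∀ x ∈ X i, ∀ y ∈ Y i, G.Adj x y) ∧
    (∀ x y, G.Adj x y → ∃ i, (x ∈ X i ∧ y ∈ Y i) ∨ (y ∈ X i ∧ x ∈ Y i)) ∧
    ∀ v, {i | v ∈ X i ∨ v ∈ Y i}.ncard ≤ r

/-- The underlying graph of the line digraph of the digraph with arcs `R`: its vertices are the arcs, and two
arcs are adjacent if the head of one is the tail of the other. -/
def arcGraph {W : Type} (R : W → W → Prop) : SimpleGraph {a : W × W // R a.1 a.2} where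
  Adj a b := a ≠ b ∧ (a.1.2 = b.1.1 ∨ b.1.2 = a.1.1)
  symm := ⟨fun _ _ h => ⟨h.1.symm, h.2.symm⟩⟩
  loopless := ⟨fun _ h => h.1 rfl⟩

lemma conn_singleton {V : Type} (G : SimpleGraph V) (r : V) :
    (G.induce ({r} : Set V)).Connected := by
  have : Nonempty ({r} : Set V) := ⟨⟨r, rfl⟩⟩
  refine ⟨fun u v => ?_⟩
  have : u = v := Subsingleton.elim u v
  subst this
  exact SimpleGraph.Reachable.refl _

lemma minor_of_biclique {V : Type} (G : SimpleGraph V) (p : ℕ) (hp : 1 ≤ p)
    (h : HasBiclique G p) : HasCliqueMinor G (p + 1) := by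
  classical
  obtain ⟨A, B, hA, hB, hAB⟩ := h
  obtain ⟨n, rfl⟩ : ∃ n, p = n + 1 := ⟨p - 1, by omega⟩
  let a : Fin (n + 1) → V := fun i => (A.equivFin.symm (Fin.cast hA.symm i)).1
  let b : Fin (n + 1) → V := fun i => (B.equivFin.symm (Fin.cast hB.symm i)).1
  have ha : Function.Injective a := by
    intro i j h
    have := A.equivFin.symm.injective (Subtype.ext h)
    simpa using this
  have hb : Function.Injective b := by
    intro i j h
    have := B.equivFin.symm.injective (Subtype.ext h)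
    simpa using this
  have hab : ∀ i j, G.Adj (a i) (b j) := fun i j =>
    hAB _ (A.equivFin.symm (Fin.cast hA.symm i)).2 _ (B.equivFin.symm (Fin.cast hB.symm j)).2
  have hne : ∀ i j, a i ≠ b j := fun i j => (hab i j).ne
  -- branch sets
  let D : Option (Fin (n + 1)) → Set V := fun o =>
    match o with
    | none => {b 0}
    | some i => if i = 0 then {a 0} else {a i, b i}
  have hD0 : D (some 0) = {a 0} := by simp [D]
  have hD1 : ∀ i, i ≠ 0 → D (some i) = {a i, b i} := by
    intro i hi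
    simp [D, hi]
  have hDn : D none = {b 0} := rfl
  have h1 : ∀ o, (G.induce (D o)).Connected := by
    intro o
    rcases o with _ | i
    · rw [hDn]; exact conn_singleton G _
    · by_cases hi : i = 0
      · subst hi; rw [hD0]; exact conn_singleton G _
      · rw [hD1 i hi]
        exact SimpleGraph.induce_pair_connected_of_adj (hab i i)
  have hmemA : ∀ i, a i ∈ D (some i) := by
    intro i
    by_cases hi : i = 0
    · subst hi; rw [hD0]; rfl
    · rw [hD1 i hi]; exact Or.inl rfl
  have hsub : ∀ i x, x ∈ D (some i) → x = a i ∨ (i ≠ 0 ∧ x = b i) := by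
    intro i x hx
    by_cases hi : i = 0
    · subst hi; rw [hD0] at hx; exact Or.inl hx
    · rw [hD1 i hi] at hx
      rcases hx with hx | hx
      · exact Or.inl hx
      · exact Or.inr ⟨hi, hx⟩
  have h2' : ∀ i, Disjoint (D none) (D (some i)) := by
    intro i
    rw [Set.disjoint_left, hDn]
    rintro x hx hx'
    rw [Set.mem_singleton_iff] at hx
    subst hx
    rcases hsub i _ hx' with h | ⟨h0, h⟩
    · exact hne _ _ h.symm
    · exact h0 (hb h).symm
  have h2 : ∀ o o', o ≠ o' → Disjoint (D o) (D o') := by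
    intro o o' hoo
    rcases o with _ | i
    · rcases o' with _ | j
      · exact absurd rfl hoo
      · exact h2' j
    · rcases o' with _ | j
      · exact (h2' i).symm
      · have hij : i ≠ j := fun h => hoo (by rw [h])
        rw [Set.disjoint_left]
        intro x hx hx'
        rcases hsub i x hx with h | ⟨-, h⟩ <;> rcases hsub j x hx' with h' | ⟨-, h'⟩
        · exact hij (ha (h.symm.trans h'))
        · exact hne _ _ (h.symm.trans h')
        · exact hne _ _ (h'.symm.trans h)
        · exact hij (hb (h.symm.trans h'))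
  have h3 : ∀ o o', o ≠ o' → ∃ u ∈ D o, ∃ w ∈ D o', G.Adj u w := by
    intro o o' hoo
    rcases o with _ | i
    · rcases o' with _ | j
      · exact absurd rfl hoo
      · exact ⟨b 0, rfl, a j, hmemA j, (hab j 0).symm⟩
    · rcases o' with _ | j
      · exact ⟨a i, hmemA i, b 0, rfl, hab i 0⟩
      · have hij : i ≠ j := fun h => hoo (by rw [h])
        by_cases hi : i = 0
        · have hj : j ≠ 0 := fun h => hij (hi.trans h.symm)
          refine ⟨a i, hmemA i, b j, ?_, hab i j⟩
          rw [hD1 j hj]; exact Or.inr rfl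
        · refine ⟨b i, ?_, a j, hmemA j, (hab j i).symm⟩
          rw [hD1 i hi]; exact Or.inr rfl
  have e : Fin (n + 1 + 1) ≃ Option (Fin (n + 1)) :=
    Fintype.equivOfCardEq (by simp)
  exact ⟨fun i => D (e i), fun i => h1 _, fun i j hij => h2 _ _ (fun h => hij (e.injective h)),
    fun i j hij => h3 _ _ (fun h => hij (e.injective h))⟩

lemma minor_mono {V : Type} (G : SimpleGraph V) {m n : ℕ} (hmn : m ≤ n)
    (h : HasCliqueMinor G n) : HasCliqueMinor G m := by
  obtain ⟨B, h1, h2, h3⟩ := h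
  refine ⟨fun i => B (Fin.castLE hmn i), fun i => h1 _, fun i j hij => h2 _ _ ?_,
    fun i j hij => h3 _ _ ?_⟩ <;>
  exact fun h => hij (Fin.castLE_injective _ h)

/-- `Sep` is monotone. -/
lemma Sep.mono {r N N' k : ℕ} (h : Sep r N' k) (hN : N ≤ N') : Sep r N k := by
  classical
  obtain ⟨A, hA⟩ := h
  refine ⟨fun c a => A c (Fin.castLE hN a), ?_⟩
  intro P M h1 h2 h3
  have hinj : Function.Injective (Fin.castLE hN) := Fin.castLE_injective _
  obtain ⟨c, hc1, hc2⟩ := hA (P.image (Fin.castLE hN)) (M.image (Fin.castLE hN))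
    ((Finset.disjoint_image hinj).2 h1) (h2.image _) (by
      rw [Finset.card_image_of_injective _ hinj, Finset.card_image_of_injective _ hinj]; exact h3)
  exact ⟨c, fun a ha => hc1 _ (Finset.mem_image_of_mem _ ha),
    fun a ha => hc2 _ (Finset.mem_image_of_mem _ ha)⟩

/-- The main lemma. -/
lemma biclique_of_sep {V : Type} [Finite V] (G : SimpleGraph V) (r p k : ℕ) (hp : 1 ≤ p)
    (hG : LocalBicliqueCover r G) (hcol : ¬ G.Colorable (k + 1))
    (hS : Sep r (2 * ((p - 1) * (r - 1)) + 1) k) : HasBiclique G p := by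
  classical
  obtain ⟨ι, hι, X, Y, hc, hcov, hload⟩ := hG
  by_contra hcon
  apply hcol
  have hsmall : ∀ i, (X i).ncard ≤ p - 1 ∨ (Y i).ncard ≤ p - 1 := by
    intro i
    by_contra h
    push Not at h
    apply hcon
    obtain ⟨A, hA, hAp⟩ := Finset.exists_subset_card_eq (s := (X i).toFinite.toFinset) (n := p) (by
      rw [← Set.ncard_eq_toFinset_card]; omega)
    obtain ⟨B, hB, hBp⟩ := Finset.exists_subset_card_eq (s := (Y i).toFinite.toFinset) (n := p) (by
      rw [← Set.ncard_eq_toFinset_card]; omega)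
    refine ⟨A, B, hAp, hBp, fun a ha b hb => hc i a ?_ b ?_⟩
    · simpa using hA ha
    · simpa using hB hb
  refine colorable_of_small G (fun i => if (X i).ncard ≤ p - 1 then X i else Y i)
    (fun i => if (X i).ncard ≤ p - 1 then Y i else X i) r (p - 1) k ?_ ?_ ?_ ?_ hS
  · intro i x hx y hy
    by_cases h : (X i).ncard ≤ p - 1
    · simp only [if_pos h] at hx hy
      exact hc i x hx y hy
    · simp only [if_neg h] at hx hy
      exact (hc i y hy x hx).symm
  · intro x y hxy
    obtain ⟨i, hi⟩ := hcov x y hxy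
    refine ⟨i, ?_⟩
    by_cases h : (X i).ncard ≤ p - 1
    · simp only [if_pos h]; exact hi
    · simp only [if_neg h]
      rcases hi with ⟨h1, h2⟩ | ⟨h1, h2⟩
      · exact Or.inr ⟨h2, h1⟩
      · exact Or.inl ⟨h2, h1⟩
  · intro v
    refine le_trans (le_of_eq ?_) (hload v)
    congr 1
    ext i
    by_cases h : (X i).ncard ≤ p - 1
    · simp [if_pos h]
    · simp [if_neg h, or_comm]
  · intro i
    by_cases h : (X i).ncard ≤ p - 1
    · simp only [if_pos h]; exact h
    · simp only [if_neg h]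
      rcases hsmall i with h1 | h1
      · exact absurd h1 h
      · exact h1

/-- Part 1. -/
lemma part1 {V : Type} [Finite V] (G : SimpleGraph V) (r p k : ℕ) (hr : 1 ≤ r) (hp : 1 ≤ p)
    (hG : LocalBicliqueCover r G) (hcol : ¬ G.Colorable (k + 1))
    (h : (r : ℝ) * 2 ^ r * Real.log (4 * r * p) < k) : HasBiclique G p := by
  apply biclique_of_sep G r p k hp hG hcol
  apply sep_of_log _ _ _ hr (by omega)
  refine lt_of_le_of_lt ?_ h
  have hx : (0 : ℝ) ≤ (r : ℝ) * 2 ^ r := by positivity
  refine mul_le_mul_of_nonneg_left ?_ hx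
  apply Real.log_le_log
  · have : (0 : ℝ) < ((2 * ((p - 1) * (r - 1)) + 1 : ℕ) : ℝ) := by
      exact_mod_cast Nat.succ_pos _
    linarith
  · obtain ⟨a, rfl⟩ : ∃ a, p = a + 1 := ⟨p - 1, by omega⟩
    obtain ⟨b, rfl⟩ : ∃ b, r = b + 1 := ⟨r - 1, by omega⟩
    simp only [Nat.add_sub_cancel]
    push_cast
    have ha : (0 : ℝ) ≤ a := Nat.cast_nonneg a
    have hb : (0 : ℝ) ≤ b := Nat.cast_nonneg b
    nlinarith

/-- Part 2. -/
lemma part2 {V : Type} [Finite V] (G : SimpleGraph V) (r k : ℕ) (hk : 2 ^ 20 ≤ k) (hr : 1 ≤ r)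
    (h : (2 : ℝ) ^ r * (Real.logb 2 k) ^ 2 ≤ k)
    (hG : LocalBicliqueCover r G) (hcol : ¬ G.Colorable k) : HasBiclique G (k + 1) := by
  have hkR : (2 : ℝ) ^ (20 : ℕ) ≤ (k : ℝ) := by
    have h0 : (((2 ^ 20 : ℕ)) : ℝ) ≤ (k : ℝ) := Nat.cast_le.2 hk
    rwa [Nat.cast_pow, Nat.cast_ofNat] at h0
  have hk1 : 1 ≤ k := le_trans Nat.one_le_two_pow hk
  clear hk
  obtain ⟨n, rfl⟩ : ∃ n, k = n + 1 := ⟨k - 1, by omega⟩
  refine part1 G r (n + 1 + 1) n hr (by omega) hG hcol ?_
  set L : ℝ := Real.logb 2 ((n + 1 : ℕ) : ℝ) with hL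
  have hkpos : (0 : ℝ) < ((n + 1 : ℕ) : ℝ) := by exact_mod_cast Nat.succ_pos n
  have hkbig : (2 : ℝ) ^ (20 : ℕ) ≤ ((n + 1 : ℕ) : ℝ) := hkR
  have hl2 : (0.6931471803 : ℝ) < Real.log 2 := Real.log_two_gt_d9
  have hl2' : Real.log 2 < (0.6931471808 : ℝ) := Real.log_two_lt_d9
  have hlogk : Real.log ((n + 1 : ℕ) : ℝ) = L * Real.log 2 := by
    rw [hL, Real.logb, div_mul_cancel₀]
    linarith
  have hL20 : (20 : ℝ) ≤ L := by
    rw [hL, Real.le_logb_iff_rpow_le (by norm_num) hkpos]
    have h1 : (2 : ℝ) ^ (20 : ℝ) = (2 : ℝ) ^ (20 : ℕ) := by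
      rw [← Real.rpow_natCast]; norm_num
    rw [h1]
    exact hkbig
  have hLpos : 0 < L := by linarith
  -- `r ≤ L`
  have hrL : (r : ℝ) ≤ L := by
    have h1 : (2 : ℝ) ^ r ≤ ((n + 1 : ℕ) : ℝ) := by
      refine le_trans ?_ h
      have h2 : (1 : ℝ) ≤ L ^ 2 := by nlinarith
      have h3 : (0 : ℝ) < (2 : ℝ) ^ r := by positivity
      nlinarith
    rw [hL, Real.le_logb_iff_rpow_le (by norm_num) hkpos, Real.rpow_natCast]
    exact h1
  have hrpos : (1 : ℝ) ≤ r := by exact_mod_cast hr
  -- the logarithm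
  have hlog : Real.log (4 * r * ((n + 1 + 1 : ℕ) : ℝ)) ≤ 0.96 * L := by
    have h1 : (4 : ℝ) * r * ((n + 1 + 1 : ℕ) : ℝ) ≤ 8 * L * ((n + 1 : ℕ) : ℝ) := by
      have h2 : ((n + 1 + 1 : ℕ) : ℝ) ≤ 2 * ((n + 1 : ℕ) : ℝ) := by
        push_cast
        have : (0 : ℝ) ≤ n := Nat.cast_nonneg n
        linarith
      have h3 : (0 : ℝ) ≤ ((n + 1 + 1 : ℕ) : ℝ) := Nat.cast_nonneg _
      calc (4 : ℝ) * r * ((n + 1 + 1 : ℕ) : ℝ) ≤ 4 * L * ((n + 1 + 1 : ℕ) : ℝ) := by gcongr
        _ ≤ 4 * L * (2 * ((n + 1 : ℕ) : ℝ)) := by gcongr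
        _ = 8 * L * ((n + 1 : ℕ) : ℝ) := by ring
    have h4 : (0 : ℝ) < 4 * r * ((n + 1 + 1 : ℕ) : ℝ) := by
      have : (0 : ℝ) < ((n + 1 + 1 : ℕ) : ℝ) := by exact_mod_cast Nat.succ_pos _
      positivity
    refine le_trans (Real.log_le_log h4 h1) ?_
    rw [Real.log_mul (by positivity) (by positivity), hlogk]
    have h5 : Real.log (8 * L) = 8 * Real.log 2 + Real.log (L / 32) := by
      have : (8 : ℝ) * L = 2 ^ 8 * (L / 32) := by ring
      rw [this, Real.log_mul (by positivity) (by positivity), Real.log_pow]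
      norm_num
    have h6 : Real.log (L / 32) ≤ L / 32 - 1 := Real.log_le_sub_one_of_pos (by positivity)
    have h7 : L * Real.log 2 ≤ L * 0.6931471808 := by gcongr
    rw [h5]
    linarith
  have hlogpos : 0 ≤ Real.log (4 * r * ((n + 1 + 1 : ℕ) : ℝ)) := by
    apply Real.log_nonneg
    have : (1 : ℝ) ≤ ((n + 1 + 1 : ℕ) : ℝ) := by exact_mod_cast Nat.succ_le_succ (Nat.zero_le _)
    nlinarith
  have h7 : (2 : ℝ) ^ r * L * L ≤ ((n + 1 : ℕ) : ℝ) := by
    calc (2 : ℝ) ^ r * L * L = 2 ^ r * L ^ 2 := by ring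
      _ ≤ _ := h
  have h8 : (r : ℝ) * 2 ^ r * Real.log (4 * r * ((n + 1 + 1 : ℕ) : ℝ)) ≤
      0.96 * ((n + 1 : ℕ) : ℝ) := by
    calc (r : ℝ) * 2 ^ r * Real.log (4 * r * ((n + 1 + 1 : ℕ) : ℝ))
        ≤ L * 2 ^ r * (0.96 * L) := by gcongr
      _ = 0.96 * (2 ^ r * L * L) := by ring
      _ ≤ 0.96 * ((n + 1 : ℕ) : ℝ) := by linarith
  refine lt_of_le_of_lt h8 ?_
  push_cast at hkbig ⊢
  norm_num at hkbig
  linarith

lemma choose_bound (m : ℕ) (hm : 7 ≤ m) : 2 * m + 3 ≤ m.choose (m / 2 + 1) := by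
  -- `m choose (m / 2 + 1) ≥ (m - 1) choose (m / 2) ≥ (m - 1) choose 3`
  obtain ⟨n, rfl⟩ : ∃ n, m = n + 1 := ⟨m - 1, by omega⟩
  have h1 : n.choose ((n + 1) / 2) ≤ (n + 1).choose ((n + 1) / 2 + 1) := by
    rw [Nat.choose_succ_succ]
    exact Nat.le_add_right _ _
  have h2 : n.choose ((n + 1) / 2) = n.choose (n / 2) := by
    rcases Nat.even_or_odd' n with ⟨a, ha | ha⟩
    · rw [show (n + 1) / 2 = n / 2 by omega]
    · rw [show (n + 1) / 2 = n - n / 2 by omega]
      exact Nat.choose_symm (by omega)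
  have h3 : n.choose 3 ≤ n.choose (n / 2) := Nat.choose_le_middle 3 n
  have h4 : ∀ d : ℕ, 2 * (6 + d + 1) + 3 ≤ (6 + d).choose 3 := by
    intro d
    induction d with
    | zero => decide
    | succ d ih =>
      have h5 : (6 + (d + 1)).choose 3 = (6 + d).choose 2 + (6 + d).choose 3 := by
        rw [show 6 + (d + 1) = (6 + d) + 1 by ring, Nat.choose_succ_succ]
      have h6 : 2 ≤ (6 + d).choose 2 := by
        calc 2 ≤ (6 : ℕ).choose 2 := by decide
          _ ≤ (6 + d).choose 2 := Nat.choose_le_choose 2 (by omega)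
      omega
  have h5 := h4 (n - 6)
  rw [show 6 + (n - 6) = n by omega] at h5
  omega

/-- Part 4. -/
lemma part4 {V : Type} [Finite V] (G : SimpleGraph V) (p k : ℕ) (hp : 1 ≤ p)
    (hG : LocalBicliqueCover 2 G) (hcol : ¬ G.Colorable (k + 1))
    (h : 2 * p - 1 ≤ k.choose (k / 2 + 1)) : HasBiclique G p := by
  apply biclique_of_sep G 2 p k hp hG hcol
  apply sep_two
  refine le_trans ?_ h
  omega

lemma part4' {V : Type} [Finite V] (G : SimpleGraph V) (k : ℕ) (hk : 7 ≤ k)
    (hG : LocalBicliqueCover 2 G) (hcol : ¬ G.Colorable k) : HasBiclique G (k + 1) := by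
  obtain ⟨n, rfl⟩ : ∃ n, k = n + 1 := ⟨k - 1, by omega⟩
  refine part4 G _ n (by omega) hG hcol ?_
  rcases Nat.lt_or_ge n 7 with h | h
  · have : n = 6 := by omega
    subst this
    decide
  · have := choose_bound n h
    omega

/-- Part 3. -/
lemma part3_cover (n : ℕ) : LocalBicliqueCover (Nat.clog 2 n) (⊤ : SimpleGraph (Fin n)) := by
  refine ⟨Fin (Nat.clog 2 n), inferInstance, fun i => {v | Nat.testBit v.1 i.1 = true},
    fun i => {v | Nat.testBit v.1 i.1 = false}, ?_, ?_, ?_⟩
  · intro i x hx y hy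
    rw [SimpleGraph.top_adj]
    rintro rfl
    simp only [Set.mem_ofPred_eq] at hx hy
    rw [hx] at hy
    exact absurd hy (by decide)
  · intro x y hxy
    rw [SimpleGraph.top_adj] at hxy
    have h1 : ∃ i : Fin (Nat.clog 2 n), Nat.testBit x.1 i.1 ≠ Nat.testBit y.1 i.1 := by
      by_contra hcon
      push Not at hcon
      apply hxy
      apply Fin.ext
      apply Nat.eq_of_testBit_eq
      intro i
      by_cases hi : i < Nat.clog 2 n
      · exact hcon ⟨i, hi⟩
      · have h2 : n ≤ 2 ^ i :=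
          le_trans (Nat.le_pow_clog (by norm_num) n) (Nat.pow_le_pow_right (by norm_num) (by omega))
        rw [Nat.testBit_lt_two_pow (lt_of_lt_of_le x.2 h2),
          Nat.testBit_lt_two_pow (lt_of_lt_of_le y.2 h2)]
    obtain ⟨i, hi⟩ := h1
    refine ⟨i, ?_⟩
    simp only [Set.mem_ofPred_eq]
    revert hi
    cases Nat.testBit x.1 i.1 <;> cases Nat.testBit y.1 i.1 <;> simp
  · intro v
    refine le_trans (Set.ncard_le_card _) ?_
    simp

lemma part3_minor (n : ℕ) : ¬ HasCliqueMinor (⊤ : SimpleGraph (Fin n)) (n + 1) := by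
  rintro ⟨B, h1, h2, -⟩
  have h3 : ∀ i, ∃ v, v ∈ B i := by
    intro i
    obtain ⟨v⟩ := (h1 i).nonempty
    exact ⟨v.1, v.2⟩
  choose f hf using h3
  have hinj : Function.Injective f := by
    intro i j hij
    by_contra hne
    exact Set.disjoint_left.1 (h2 i j hne) (hf i) (by rw [hij]; exact hf j)
  have := Fintype.card_le_of_injective f hinj
  simp at this

/-- Part 5. -/
lemma part5 (W : Type) [Finite W] (R : W → W → Prop) (hR : ∀ w, ¬ R w w) :
    LocalBicliqueCover 2 (arcGraph R) := by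
  classical
  refine ⟨W, inferInstance, fun w => {a | a.1.2 = w}, fun w => {a | a.1.1 = w}, ?_, ?_, ?_⟩
  · intro w x hx y hy
    simp only [Set.mem_ofPred_eq] at hx hy
    refine ⟨?_, Or.inl (hx.trans hy.symm)⟩
    rintro rfl
    have := x.2
    rw [hx, hy] at this
    exact hR w this
  · rintro x y ⟨-, h | h⟩
    · exact ⟨y.1.1, Or.inl ⟨h, rfl⟩⟩
    · exact ⟨x.1.1, Or.inr ⟨h, rfl⟩⟩
  · intro v
    have h1 : {w | v ∈ {a : {a : W × W // R a.1 a.2} | a.1.2 = w} ∨
        v ∈ {a : {a : W × W // R a.1 a.2} | a.1.1 = w}} = {v.1.2, v.1.1} := by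
      ext w
      simp [eq_comm]
    rw [h1]
    exact le_trans (Set.ncard_insert_le _ _) (by simp)

/-- **Hadwiger's conjecture for graphs of small local biclique cover number.** -/
theorem result :
    -- 1. `K_{p,p}`, and so `K_{p+1}`, for `p` exponential in the chromatic number
    (∀ (V : Type) [Finite V] (G : SimpleGraph V) (r p k : ℕ), 1 ≤ r → 1 ≤ p →
      LocalBicliqueCover r G → ¬ G.Colorable (k + 1) →
      (r : ℝ) * 2 ^ r * Real.log (4 * r * p) < k → HasBiclique G p ∧ HasCliqueMinor G (p + 1)) ∧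
    -- 2. one more than Hadwiger's conjecture if the local biclique cover number is at most
    -- `log₂ χ - 2 log₂ log₂ χ`
    (∀ (V : Type) [Finite V] (G : SimpleGraph V) (r k : ℕ), 2 ^ 20 ≤ k → 1 ≤ r →
      (2 : ℝ) ^ r * (Real.logb 2 k) ^ 2 ≤ k →
      LocalBicliqueCover r G → ¬ G.Colorable k → HasCliqueMinor G (k + 2)) ∧
    -- 3. complete graphs
    (∀ n : ℕ, LocalBicliqueCover (Nat.clog 2 n) (⊤ : SimpleGraph (Fin n)) ∧
      ¬ HasCliqueMinor (⊤ : SimpleGraph (Fin n)) (n + 1)) ∧
    -- 4. `r = 2`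
    (∀ (V : Type) [Finite V] (G : SimpleGraph V), LocalBicliqueCover 2 G →
      (∀ p k : ℕ, 1 ≤ p → 2 * p - 1 ≤ k.choose (k / 2 + 1) → ¬ G.Colorable (k + 1) →
        HasBiclique G p ∧ HasCliqueMinor G (p + 1)) ∧
      ∀ k : ℕ, 7 ≤ k → ¬ G.Colorable k → HasCliqueMinor G (k + 2)) ∧
    -- 5. line digraphs
    (∀ (W : Type) [Finite W] (R : W → W → Prop), (∀ w, ¬ R w w) →
      LocalBicliqueCover 2 (arcGraph R)) := by
  refine ⟨?_, ?_, ?_, ?_, ?_⟩
  · intro V _ G r p k hr hp hG hcol h
    have h1 := part1 G r p k hr hp hG hcol h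
    exact ⟨h1, minor_of_biclique G p hp h1⟩
  · intro V _ G r k hk hr h hG hcol
    exact minor_of_biclique G (k + 1) (by omega) (part2 G r k hk hr h hG hcol)
  · exact fun n => ⟨part3_cover n, part3_minor n⟩
  · intro V _ G hG
    refine ⟨?_, ?_⟩
    · intro p k hp h hcol
      have h1 := part4 G p k hp hG hcol h
      exact ⟨h1, minor_of_biclique G p hp h1⟩
    · intro k hk hcol
      exact minor_of_biclique G (k + 1) (by omega) (part4' G k hk hG hcol)
  · intro W _ R hR
    exact part5 W R hR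

end Pool.Agent.Results.MP_b47bfb_co.BicliqueCovers
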