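import Pool.Agent.Run7.h367.DP.Star

/-!
# Clique minors of direct products of graphs

The direct (tensor, categorical) product `G × H` has the vertex set `V(G) × V(H)`, and `(a, b)` is adjacent
to `(a', b')` if and only if `a a'` is an edge of `G` and `b b'` is an edge of `H`.  It maps to `G` and to `H`,
so `χ(G × H) ≤ min (χ(G), χ(H))`.  Let `h(G)` be the largest `m` such that `K_m` is a minor of `G`.

**Theorem.**
1. Hadwiger's conjecture, and so Q1, holds for all direct products: if `G × H` is not `k`-colourable
  then `K_{k+1}` is a minor of `G × H`.  It suffices that neither `G` nor `H` is `k`-colourable (the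
  chromatic number of the product may be smaller than the smaller one of the chromatic numbers of the
  factors, by the counterexamples of Shitov to the conjecture of Hedetniemi), or that both of them have
  a vertex with at least `k` neighbours.
2. If `G` is not `a`-colourable and `H` is not `b`-colourable, then `K_{2t}` is a minor of `G × H`,
  and of every graph `F` that contains `G × H` as a (not necessarily induced) subgraph, as soon as
  `36000 t √(log t) ≤ a b`, `t ≥ 2`.  So `h(G × H) ≥ c χ(G) χ(H) / √(log (χ(G) χ(H)))`, which is
  almost quadratic in the chromatic number of the product, and a counterexample `F` to Q1 with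
  `χ(F) = n` contains no direct product `G × H` with `χ(G) χ(H) ≥ C n √(log n)`.
3. `h(G × H) ≥ h(G)` if `H` is connected and not bipartite, for every graph `G`.
4. There is an absolute constant `c > 0` with `h(G × H) ≥ c h(G) h(H) / √(log (h(G) h(H)))` for all graphs with
  at least one edge: up to the square root of a logarithm the clique minors multiply.
5. For all `k ≥ 2` and `m`: if `G`, in case it is not `k`-colourable, has a minor `K_m`, then so
  has `G × H` for every graph `H`.

The graphs need not be finite.

Proof.  1: a graph that is not `k`-colourable has a vertex with at least `k` neighbours, and the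
product of two stars `K_{1,k}` contains `K_{k,k}`.  2: the factors have subgraphs of
minimum degree at least `a` and `b`, and their product has minimum degree at least `a b`; apply the
theorem of Kostochka and Thomason, which is proved in this tree with an explicit constant.
3: let `B_1, …, B_n` be the branch sets of a clique minor of `G`.  If `B_i` has at least two vertices,
then it contains an edge, and `B_i × V(H)` induces a connected subgraph of the product, since `H`
is connected and not bipartite.  The branch sets with one vertex `v_i` form a clique; if there are at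
least three of them, take the sets `{(v_i, a), (v_{i+1}, b)}` (cyclically), where `a b` is an edge of `H`.
4: pair the branch sets, so that each of them contains an edge.  The product of two
branch sets `D` of `G` and `D'` of `H` has at most two components; if all components of all the
products are contracted, we obtain a minor of `G × H` with at most `2 p q` vertices and at least
`p q (p q - 1) / 2` edges, and the theorem of Kostochka and Thomason applies.  5: if `G × H`
is not `k`-colourable, `k ≥ 2`, then neither is `G`, and some component of `H` is not bipartite; use 3.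
-/

set_option autoImplicit false

namespace Pool.Agent.Results.MP_b47bfb_co.DirectProducts

/-- `K_m` is a minor of `G`: there are `m` pairwise disjoint vertex sets, each inducing a connected
subgraph, with an edge of `G` between any two of them. -/
def HasCliqueMinor {V : Type} (G : SimpleGraph V) (m : ℕ) : Prop :=
  ∃ B : Fin m → Set V,
    (∀ i, (G.induce (B i)).Connected) ∧
    (∀ i j, i ≠ j → Disjoint (B i) (B j)) ∧
    (∀ i j, i ≠ j → ∃ u ∈ B i, ∃ w ∈ B j, G.Adj u w)

/-- The direct product of `G` and `H`. -/
def directProduct {V W : Type} (G : SimpleGraph V) (H : SimpleGraph W) :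
    SimpleGraph (V × W) where
  Adj x y := G.Adj x.1 y.1 ∧ H.Adj x.2 y.2
  symm := ⟨fun _ _ h => ⟨h.1.symm, h.2.symm⟩⟩
  loopless := ⟨fun _ h => G.loopless.irrefl _ h.1⟩

theorem result :
    (∀ (V W : Type) (G : SimpleGraph V) (H : SimpleGraph W) (k : ℕ),
      ¬ (directProduct G H).Colorable k → HasCliqueMinor (directProduct G H) (k + 1)) ∧
    (∀ (V W : Type) (G : SimpleGraph V) (H : SimpleGraph W) (k : ℕ),
      ¬ G.Colorable k → ¬ H.Colorable k → HasCliqueMinor (directProduct G H) (k + 1)) ∧
    (∀ (V W : Type) (G : SimpleGraph V) (H : SimpleGraph W) (k : ℕ) (u : V) (x : W)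
      (v : Fin k → V) (y : Fin k → W), Function.Injective v → Function.Injective y →
      (∀ i, G.Adj u (v i)) → (∀ i, H.Adj x (y i)) → HasCliqueMinor (directProduct G H) (k + 1)) ∧
    (∀ (V W : Type) (G : SimpleGraph V) (H : SimpleGraph W) (a b t : ℕ),
      ¬ G.Colorable a → ¬ H.Colorable b → 2 ≤ t →
      36000 * (t * √(Real.log t)) ≤ (a : ℝ) * b →
      ∀ (U : Type) (F : SimpleGraph U) (f : V × W → U), Function.Injective f →
        (∀ x y, (directProduct G H).Adj x y → F.Adj (f x) (f y)) → HasCliqueMinor F (2 * t)) ∧
    (∀ (V W : Type) (G : SimpleGraph V) (H : SimpleGraph W) (n : ℕ),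
      H.Connected → ¬ H.Colorable 2 → HasCliqueMinor G n →
      HasCliqueMinor (directProduct G H) n) ∧
    (∀ (V W : Type) (G : SimpleGraph V) (H : SimpleGraph W) (p q t : ℕ), 1 ≤ p → 1 ≤ q →
      HasCliqueMinor G (2 * p) → HasCliqueMinor H (2 * q) → 2 ≤ t →
      36000 * (t * √(Real.log t)) ≤ ((p : ℝ) * q - 1) / 2 →
      HasCliqueMinor (directProduct G H) (2 * t)) ∧
    (∀ (V W : Type) (G : SimpleGraph V) (H : SimpleGraph W) (k m : ℕ), 2 ≤ k →
      (¬ G.Colorable k → HasCliqueMinor G m) →
      ¬ (directProduct G H).Colorable k → HasCliqueMinor (directProduct G H) m) := by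
  refine ⟨?_, ?_, ?_, ?_, ?_, ?_, ?_⟩
  · intro V W G H k h
    exact Pool.Agent.Run7.h367.DP.hadwiger_prod (Pool.Agent.Run7.h367.DP.left_not h)
      (Pool.Agent.Run7.h367.DP.right_not h)
  · intro V W G H k hG hH
    exact Pool.Agent.Run7.h367.DP.hadwiger_prod hG hH
  · intro V W G H k u x v y hv hy h1 h2
    refine Pool.Agent.Run7.h367.DP.of_deg (G := G) (H := H)
      (Pool.Agent.Run7.h367.DP.deg_of_ncard (u := u) (Set.range v) (Set.finite_range v) ?_ ?_)
      (Pool.Agent.Run7.h367.DP.deg_of_ncard (u := x) (Set.range y) (Set.finite_range y) ?_ ?_)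
    · rintro _ ⟨i, rfl⟩
      exact h1 i
    · rw [← Set.image_univ, Set.ncard_image_of_injective _ hv, Set.ncard_univ, Nat.card_fin]
    · rintro _ ⟨i, rfl⟩
      exact h2 i
    · rw [← Set.image_univ, Set.ncard_image_of_injective _ hy, Set.ncard_univ, Nat.card_fin]
  · intro V W G H a b t hG hH ht hab U F f hf hF
    exact Pool.Agent.Run7.h367.DP.CM.of_hom f hf hF
      (Pool.Agent.Run7.h367.DP.product_KT_inf hG hH ht hab)
  · intro V W G H n hH h2 hG
    exact Pool.Agent.Run7.h367.DP.prod_minor hG hH h2
  · intro V W G H p q m hp hq hG hH hm h
    obtain ⟨I, hI, hI', K, hK, hKd⟩ := Pool.Agent.Run7.h367.DP.dense_minor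
      (Pool.Agent.Run7.h367.DP.fat_of_CM hG) (Pool.Agent.Run7.h367.DP.fat_of_CM hH) hp hq
    refine Pool.Agent.Run7.h367.DP.CM.of_minor hK
      (Pool.Agent.Run7.h367.DP.KT hm I K (h.trans ?_))
    push_cast at hKd
    exact hKd
  · intro V W G H k m hk hG h
    exact Pool.Agent.Run7.h367.DP.hered hk hG h

end Pool.Agent.Results.MP_b47bfb_co.DirectProducts
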