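import Pool.Agent.Run7.h644.CU.Fin

/-!
MP_b47bfb_co: Hadwiger's conjecture (the full clique minor `K_{k+1}` for graphs that are not
`k`-colourable) for connected Cayley graphs of elementary abelian 2-groups (cubelike graphs) and
3-groups with a large independent subgroup, in particular for all those of degree
less than `|A| / p ^ 52`, and for dense ones.
-/

set_option autoImplicit false

namespace Pool.Agent.Results.MP_b47bfb_co.ElementaryAbelianCayley

/-- `K_k` is a minor of `G`: there are `k` pairwise disjoint vertex sets, each inducing a connected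
subgraph, any two of them joined by an edge of `G`. -/
def HasCliqueMinor {V : Type} (G : SimpleGraph V) (k : ℕ) : Prop :=
  ∃ f : Fin k → Set V,
    (∀ i, (G.induce (f i)).Connected) ∧
    (∀ i j, i ≠ j → Disjoint (f i) (f j)) ∧
    (∀ i j, i ≠ j → ∃ u ∈ f i, ∃ v ∈ f j, G.Adj u v)

/-- `G` is a Cayley graph of the abelian group `A`: adjacency is invariant under translations. -/
def IsCayley {A : Type} [AddCommGroup A] (G : SimpleGraph A) : Prop :=
  ∀ x y z : A, G.Adj (x + z) (y + z) ↔ G.Adj x y

/-- The degree of a Cayley graph: the number of neighbours of `0`. -/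
noncomputable def degree {A : Type} [AddCommGroup A] (G : SimpleGraph A) : ℕ :=
  {s : A | G.Adj 0 s}.ncard

/-- The subgroup `U` is an independent set. -/
def Independent {A : Type} [AddCommGroup A] (G : SimpleGraph A) (U : AddSubgroup A) : Prop :=
  ∀ u ∈ U, ∀ w ∈ U, ¬ G.Adj u w

/-- Any two different cosets of `U` are joined by an edge. -/
def CosetsJoined {A : Type} [AddCommGroup A] (G : SimpleGraph A) (U : AddSubgroup A) : Prop :=
  ∀ x y : A, x - y ∉ U → ∃ x' y' : A, x' - x ∈ U ∧ y' - y ∈ U ∧ G.Adj x' y'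

/-- `U` is large: it has order at least `p ^ 52`; or, for some `c`, it has order at least
`p ^ (2 c + 3)` and the degree is greater than `(|A| - |U|) / p ^ (c + 1)`; or `p ≤ 3`, it has order
at least `p ^ 2` and the degree is greater than `(|A| - |U|) / p`. -/
def Large {A : Type} [AddCommGroup A] (p : ℕ) (G : SimpleGraph A) (U : AddSubgroup A) : Prop :=
  p ^ 52 ≤ Nat.card U ∨
  (∃ c : ℕ, p ^ (2 * c + 3) ≤ Nat.card U ∧ Nat.card A < p ^ (c + 1) * degree G + Nat.card U) ∨
  (p ≤ 3 ∧ p ^ 2 ≤ Nat.card U ∧ Nat.card A < p * degree G + Nat.card U)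

/-- Let `A` be a finite elementary abelian `p`-group and `G` a connected Cayley graph of `A`.

(1) If `U` is a large independent subgroup of `A` any two cosets of which are joined by an edge,
then `K_m` is a minor of `G`, where `m` is the index of `U`; and `G` is `m`-colourable.

(2) If `p ≤ 3` and `A` has a large independent subgroup, then `K_{k+1}` is a minor of `G` whenever
`G` is not `k`-colourable.

(3) In particular this holds if `p ≤ 3` and `(d + 1) * p ^ 52 ≤ |A|` where `d` is the degree.

(4) In particular it holds if `p = 2`, the degree is at least `|A| / 2 - 1` and `G` has three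
pairwise nonadjacent vertices. -/
theorem result (p : ℕ) (hp : p.Prime) (A : Type) [AddCommGroup A] [Fintype A]
    (hA : ∀ x : A, p • x = 0) (G : SimpleGraph A) (hG : IsCayley G) (hconn : G.Connected) :
    (∀ U : AddSubgroup A, Independent G U → CosetsJoined G U → Large p G U →
      HasCliqueMinor G U.index ∧ G.Colorable U.index) ∧
    (p ≤ 3 → (∃ U : AddSubgroup A, Independent G U ∧ Large p G U) →
      ∀ k : ℕ, ¬ G.Colorable k → HasCliqueMinor G (k + 1)) ∧
    (p ≤ 3 → (degree G + 1) * p ^ 52 ≤ Nat.card A →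
      ∀ k : ℕ, ¬ G.Colorable k → HasCliqueMinor G (k + 1)) ∧
    (p = 2 → Nat.card A ≤ 2 * degree G + 2 →
      (∃ x y z : A, x ≠ y ∧ y ≠ z ∧ x ≠ z ∧ ¬ G.Adj x y ∧ ¬ G.Adj y z ∧ ¬ G.Adj x z) →
      ∀ k : ℕ, ¬ G.Colorable k → HasCliqueMinor G (k + 1)) := by
  have : Fact p.Prime := ⟨hp⟩
  let _ : Module (ZMod p) A := AddCommGroup.zmodModule hA
  refine ⟨?_, ?_, ?_, ?_⟩
  · intro U hU hJ hL
    refine Run7.h644.CU.core' (p := p) hG hconn U (fun u hu => hU 0 U.zero_mem u hu) ?_ hL
    intro x hx
    obtain ⟨x', y', h1, h2, hadj⟩ := hJ 0 x (by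
      rw [zero_sub]
      exact fun h => hx (by
        have := U.neg_mem h
        rwa [neg_neg] at this))
    rw [sub_zero] at h1
    refine ⟨y' - x - x', U.sub_mem h2 h1, ?_⟩
    have e : x + (y' - x - x') = y' - x' := by abel
    rw [e]
    exact (Run7.h644.CU.TI.adj hG x' y').1 hadj
  · rintro hp3 ⟨U, hU, hL⟩ k hk
    exact Run7.h644.CU.hadwiger_of' (p := p) hG hconn hp3 U
      (fun u hu => hU 0 U.zero_mem u hu) hL k hk
  · intro hp3 hd k hk
    exact Run7.h644.CU.hadwiger_sparse (p := p) hG hconn hp3 hd k hk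
  · rintro rfl hd hα k hk
    exact Run7.h644.CU.hadwiger_dense hG hconn hα hd k hk

end Pool.Agent.Results.MP_b47bfb_co.ElementaryAbelianCayley
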