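import Pool.Agent.Run7.h367.SP.Gen

/-!
# Clique minors of strong products

The strong product `G ⊠ H` has the vertex set `V(G) × V(H)`; distinct vertices `(a, b)`, `(a', b')` are
adjacent if and only if (`a = a'` or `a a'` is an edge of `G`) and (`b = b'` or `b b'` is an edge of `H`).
Its chromatic number is at most the number of colours in a `χ(G)`-fold colouring of `H`; this
number is at least `2 χ(G)` if `H` has an edge, equal to `2 χ(G)` if `H` is bipartite, and at most `χ(G) χ(H)`.
Let `h(G)` be the largest `m` such that `K_m` is a minor of `G`.  We call `H` `N`-wide if it contains a path with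
`N` vertices, or a set `Q` that induces a connected subgraph and has at least `N` neighbours
outside of `Q` (for instance, if `H` has a vertex of degree `N` or contains a tree with `N` leaves).

**Theorem.**  Let `G` be a graph that is not `k`-colourable.
1. If `H` is `(2k+2)`-wide, then every graph that contains `G ⊠ H` as a (not necessarily induced)
subgraph has a minor `K_{2k+2}`.
2. If `H` contains a cycle with at least `2k + 3` vertices, then every graph that contains `G ⊠ H` has a minor
`K_{2k+3}`.
3. Every connected graph with at least `N²` vertices is `N`-wide.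
4. Let `c ≥ χ(G)`.  Hadwiger's conjecture, and so Q1, holds for `G ⊠ H` if `H` is bipartite and
`2c`-wide (so, if `H` is connected, bipartite and has at least `4 c²` vertices), or if `H` is not
bipartite and has a homomorphism to the cycle `C_{2c+1}`.  In particular, it holds for
`G ⊠ P_n`, `G ⊠ C_n` for all `n ≥ 2 χ(G)`.
5. Q1 holds for `G ⊠ H` if `χ(G) ≤ 2a` and `H` is connected, has at least `12 a (4a + 1)` vertices
and a homomorphism to the cycle `C_{2a+1}`.
6. If `H` is connected and has a minor `K_{h+2}` and at least `(h + 2) (2k + 1) (2k + h + 3)`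
vertices, then every graph that contains `G ⊠ H` has a minor `K_{2k+2+h}`.  So
`h(G ⊠ H) ≥ 2 χ(G) + h(H) - 2` whenever `H` is connected and large.
7. Let `H` be as in 6, and let `G` be `(k+1)`-colourable.  If `H` has a `(k+1)`-fold colouring with
`2 (k+1) + h + d` colours, then `h(G ⊠ H) ≥ χ(G ⊠ H) - d`: the conjecture of Hadwiger for `d = 0`,
Q1 for `d = 1`.

The graphs need not be finite.  By 1, a counterexample `F` to Q1 with `χ(F) = n` does not contain
`G ⊠ H`, where `2 χ(G) ≥ n - 1` and `H` is `2 χ(G)`-wide.

Proof.  A vertex-critical subgraph of `G` with more than `k` colours is connected and has minimum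
degree at least `k`; hence it has a path with `2k + 1` vertices or a Hamiltonian path.  If it has
at most `2k` vertices, then by the theorem of Gallai the number `m` of components of its complement
and the number `n` of its vertices satisfy `n + m ≥ 2k + 2`, and these components are disjoint connected
dominating sets.  So `G` contains a graph `F` with a Hamiltonian path, with `n ≤ 2k + 1` vertices and
with `m ≥ 1` disjoint connected dominating sets `D_i`, `n + m ≥ 2k + 2`.  Let `n` tokens
move on the Hamiltonian path `x_0, …, x_{n-1}` of `F` by `n - 1` rounds of the odd-even transposition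
network; then every two of them are adjacent at some time.  The strands that
the tokens describe in `F ⊠ P`, where `P` is a path with `n` vertices, are disjoint, connected and pairwise
adjacent, and they cover `F ⊠ P`.  If `x` is another neighbour of an end vertex of `P`, then the strands
together with the sets `D_i × {x}` form a minor `K_{n+m}`, and together with `V(F) × R` a
minor `K_{n+m+1}`, if `R` is the rest of a cycle that contains `P` and `x`.  If `Q` has the neighbours
`l_1, …, l_{n+1}`, take the sets `{x_i} × Q ∪ V(F) × {l_i}` and `D_i × {l_{n+1}}`.  This proves 1 and 2.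
3: consider the levels of a breadth-first search.  4: use 1, 2 and `χ(G ⊠ H) ≤ 2c`, `2c + 1`.  6: extend
the branch sets of a minor `K_{h+2}` of `H` to a partition of `V(H)`, take the strands, extended
suitably, in a large part, and the sets `D_i × R_j` for the other parts `R_j`.  5 and 7 follow from 6; the
cycle `C_{2a+1}` has an `x`-fold colouring with `q` colours if `(2a + 1) x ≤ a q`.
-/

set_option autoImplicit false

namespace Pool.Agent.Results.MP_b47bfb_co.StrongProducts

/-- `K_m` is a minor of `G`: there are `m` pairwise disjoint vertex sets, each inducing a connected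
subgraph, with an edge of `G` between any two of them. -/
def HasCliqueMinor {V : Type} (G : SimpleGraph V) (m : ℕ) : Prop :=
  ∃ B : Fin m → Set V,
    (∀ i, (G.induce (B i)).Connected) ∧
    (∀ i j, i ≠ j → Disjoint (B i) (B j)) ∧
    (∀ i j, i ≠ j → ∃ u ∈ B i, ∃ w ∈ B j, G.Adj u w)

/-- The strong product of `G` and `H`. -/
def strongProduct {V W : Type} (G : SimpleGraph V) (H : SimpleGraph W) :
    SimpleGraph (V × W) where
  Adj x y := x ≠ y ∧ (x.1 = y.1 ∨ G.Adj x.1 y.1) ∧ (x.2 = y.2 ∨ H.Adj x.2 y.2)
  symm := ⟨fun _ _ h => ⟨h.1.symm, h.2.1.imp Eq.symm SimpleGraph.Adj.symm,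
    h.2.2.imp Eq.symm SimpleGraph.Adj.symm⟩⟩
  loopless := ⟨fun _ h => h.1 rfl⟩

/-- `F` contains `G` as a subgraph, not necessarily an induced one. -/
def Contains {U V : Type} (F : SimpleGraph U) (G : SimpleGraph V) : Prop :=
  ∃ f : V → U, Function.Injective f ∧ ∀ x y, G.Adj x y → F.Adj (f x) (f y)

/-- `W` has at least `N` elements. -/
def AtLeast (W : Type) (N : ℕ) : Prop := ∃ f : Fin N → W, Function.Injective f

/-- `H` contains a path with `N` vertices, or a set `Q` that induces a connected subgraph and
`N` different vertices that do not belong to `Q` and are adjacent to vertices of `Q`. -/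
def Wide {W : Type} (H : SimpleGraph W) (N : ℕ) : Prop :=
  (∃ p : Fin N → W, Function.Injective p ∧ ∀ i j : Fin N, i.1 + 1 = j.1 → H.Adj (p i) (p j)) ∨
  ∃ (Q : Set W) (ν : Fin N → W), (H.induce Q).Connected ∧ Function.Injective ν ∧
    ∀ i, ν i ∉ Q ∧ ∃ q ∈ Q, H.Adj q (ν i)

/-- A `c`-fold colouring of `H` with `q` colours: every vertex has `c` of the colours, and
adjacent vertices have no colour in common. -/
def FoldColorable {W : Type} (H : SimpleGraph W) (c q : ℕ) : Prop :=
  ∃ f : W → Finset (Fin q), (∀ w, (f w).card = c) ∧ ∀ w w', H.Adj w w' → Disjoint (f w) (f w')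

theorem result :
    (∀ (k : ℕ) (V W : Type) (G : SimpleGraph V) (H : SimpleGraph W),
      ¬ G.Colorable k → Wide H (2 * k + 2) →
      ∀ (U : Type) (F : SimpleGraph U), Contains F (strongProduct G H) →
        HasCliqueMinor F (2 * k + 2)) ∧
    (∀ (k : ℕ) (V W : Type) (G : SimpleGraph V) (H : SimpleGraph W) (v : W) (c : H.Walk v v),
      ¬ G.Colorable k → c.IsCycle → 2 * k + 3 ≤ c.length →
      ∀ (U : Type) (F : SimpleGraph U), Contains F (strongProduct G H) →
        HasCliqueMinor F (2 * k + 3)) ∧
    (∀ (N : ℕ) (W : Type) (H : SimpleGraph W), H.Connected → AtLeast W (N * N) → Wide H N) ∧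
    (∀ (c k : ℕ) (V W : Type) (G : SimpleGraph V) (H : SimpleGraph W),
      G.Colorable c →
      (H.Colorable 2 ∧ Wide H (2 * c)) ∨
        (¬ H.Colorable 2 ∧ Nonempty (H →g SimpleGraph.cycleGraph (2 * c + 1))) →
      ¬ (strongProduct G H).Colorable k → HasCliqueMinor (strongProduct G H) (k + 1)) ∧
    (∀ (a k : ℕ) (V W : Type) (G : SimpleGraph V) (H : SimpleGraph W),
      G.Colorable (2 * a) → H.Connected → AtLeast W (12 * (a * (4 * a + 1))) →
      Nonempty (H →g SimpleGraph.cycleGraph (2 * a + 1)) →
      ¬ (strongProduct G H).Colorable k → HasCliqueMinor (strongProduct G H) k) ∧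
    (∀ (k h : ℕ) (V W : Type) (G : SimpleGraph V) (H : SimpleGraph W),
      ¬ G.Colorable k → H.Connected → HasCliqueMinor H (h + 2) →
      AtLeast W ((h + 2) * ((2 * k + 1) * (2 * k + h + 3))) →
      (∀ (U : Type) (F : SimpleGraph U), Contains F (strongProduct G H) →
        HasCliqueMinor F (2 * k + 2 + h)) ∧
      (∀ d j : ℕ, G.Colorable (k + 1) → FoldColorable H (k + 1) (2 * (k + 1) + h + d) →
        ¬ (strongProduct G H).Colorable j → HasCliqueMinor (strongProduct G H) (j + 1 - d))) := by
  refine ⟨?_, ?_, ?_, ?_, ?_, ?_⟩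
  · rintro k V W G H hG hH U F ⟨f, f1, f2⟩
    exact Pool.Agent.Run7.h367.DP.CM.of_hom f f1 f2 (Pool.Agent.Run7.h367.SP.wide_minor hG hH)
  · rintro k V W G H v c hG hc hL U F ⟨f, f1, f2⟩
    exact Pool.Agent.Run7.h367.DP.CM.of_hom f f1 f2
      (Pool.Agent.Run7.h367.SP.cycle_minor hG c hc hL)
  · intro N W H hH hf
    exact Pool.Agent.Run7.h367.SP.wide_of_large hH hf
  · intro c k V W G H hG hH hk
    exact Pool.Agent.Run7.h367.SP.hadwiger hG hH hk
  · rintro a k V W G H hG hH hf ⟨φ⟩ hk
    exact Pool.Agent.Run7.h367.SP.q1_cycle hG hH hf φ hk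
  · intro k h V W G H hG hH hR hf
    refine ⟨?_, ?_⟩
    · rintro U F ⟨f, f1, f2⟩
      exact Pool.Agent.Run7.h367.DP.CM.of_hom f f1 f2
        (Pool.Agent.Run7.h367.SP.main_gen hG hH hf hR)
    · intro d j h1 hc hj
      obtain ⟨f, f1, f2⟩ := hc
      have h3 := Pool.Agent.Run7.h367.SP.col_fold h1 f f1 f2
      have h4 : j < 2 * (k + 1) + h + d := by
        by_contra hcon
        exact hj (h3.mono (not_lt.1 hcon))
      exact Pool.Agent.Run7.h367.DP.CM.mono (Pool.Agent.Run7.h367.SP.main_gen hG hH hf hR)
        (by omega)

end Pool.Agent.Results.MP_b47bfb_co.StrongProducts
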